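import Mathlib
import Pool.Agent.Work.MP_787500_nt.H72_Loc
import Pool.Agent.Work.MP_787500_nt.H10_Main

/-!
Selmer groups of 2-adic representations, with arbitrary local conditions at two dyadic places, over
the number fields in the maximal 2-extension, unramified outside 2, of an imaginary quadratic field
of discriminant `-q`, `q` a prime, `q = 7` modulo 16.
-/

set_option autoImplicit false

namespace Pool.Agent.Work.MP_787500_nt.Old.DyadicConditions

open IsDedekindDomain NumberField Pool.Agent.Work.MP_787500_nt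

universe u

theorem result (K F : Type u) [Field K] [NumberField K] [Field F] [NumberField F] [Algebra K F]
    (q : ℕ) (s : K) (hK : IsBase K q s) (hF : InTwoTower K F)
    (w w' : HeightOneSpectrum (𝓞 F)) (hw : (2 : 𝓞 F) ∈ w.asIdeal) (hw' : (2 : 𝓞 F) ∈ w'.asIdeal)
    (ι : AlgebraicClosure F →ₐ[F] AlgebraicClosure (w.adicCompletion F))
    (ι' : AlgebraicClosure F →ₐ[F] AlgebraicClosure (w'.adicCompletion F))
    (n : ℕ) (ρ : AbsGal F →* Matrix (Fin n) (Fin n) ℤ_[2]) (S : Set (Fin n))
    (hρ : IsOrdinary ρ (decomp ι) (decomp ι') S)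
    (Q : HeightOneSpectrum (𝓞 F) → Ideal (𝓞 (AlgebraicClosure F)))
    (T : Finset (HeightOneSpectrum (𝓞 F))) (hT : IsRamSet ρ Q T) :
    Loc.SelmerBound ρ (decomp ι) (decomp ι') S Q T := by
  intro L L'
  obtain ⟨hK, hs, hq, hq16⟩ := hK
  exact (Loc.selmerDim_le L L').trans (add_le_add le_rfl
    (rank_selmer_le (general_tower hK hs hq hq16 hF) hw hw' hρ
      (fun v => ⟨hT.prime v, hT.above v⟩) hT.unram hT.off))

end Pool.Agent.Work.MP_787500_nt.Old.DyadicConditions
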