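import Mathlib
import Pool.Agent.Work.MP_787500_nt.H67_Loc
import Pool.Agent.Work.MP_787500_nt.H67_Main

/-!
Selmer groups of `p`-adic representations, residually sums of the trivial and the cyclotomic
character, with arbitrary local conditions at two primes containing `p`, over the number fields in
the maximal `p`-extension, unramified outside `p`, of an imaginary quadratic field, for example of
the field generated by a square root of `1 - 4 p`.
-/

set_option autoImplicit false

namespace Pool.Agent.Work.MP_787500_nt.Old.OddConditions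

open IsDedekindDomain NumberField Pool.Agent.Work.MP_787500_nt.OddP

universe u

theorem result (p : ℕ) [Fact p.Prime] (hp2 : p ≠ 2) (K F : Type u) [Field K] [NumberField K]
    [Field F] [NumberField F] [Algebra K F]
    (hK : IsBase p K ∨ (Module.finrank ℚ K = 2 ∧ ∃ s : K, s ^ 2 = 1 - 4 * (p : K)))
    (hF : InPTower p K F)
    (P P' : Ideal (𝓞 (AlgebraicClosure F))) (hP : P.IsPrime) (hP' : P'.IsPrime)
    (hpP : (p : 𝓞 (AlgebraicClosure F)) ∈ P) (hpP' : (p : 𝓞 (AlgebraicClosure F)) ∈ P')
    (n : ℕ) (ρ : AbsGal F →* Matrix (Fin n) (Fin n) ℤ_[p]) (S : Set (Fin n))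
    (hρ : Ord.IsOrd ρ P P' S)
    (Q : HeightOneSpectrum (𝓞 F) → Ideal (𝓞 (AlgebraicClosure F)))
    (T : Finset (HeightOneSpectrum (𝓞 F))) (hT : IsRamSet ρ Q T) :
    Loc.SelmerBound ρ P P' S Q T := by
  have hK' : IsBase p K := by
    rcases hK with h | ⟨hdeg, s, hs⟩
    · exact h
    · exact isBase_of_sq Fact.out hp2 hdeg hs
  exact Loc.selmerBound (vv_of_tower hK' hF P hpP) (vv_of_tower hK' hF P' hpP') hρ hT

end Pool.Agent.Work.MP_787500_nt.Old.OddConditions
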