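import Mathlib
import Pool.Agent.Work.MP_787500_nt.P3.D_Inv
import Pool.Agent.Work.MP_787500_nt.P3.C_LG
import Pool.Agent.Work.MP_787500_nt.P3.E_Stmt

/-!
Parity and upper bound for the dimension of Selmer groups, `p = 3`: conjugate self-dual
representations, unramified outside 3 and residually sums of the trivial and the cyclotomic character
(up to semisimplification), of the absolute Galois group of an imaginary quadratic field in which 3
splits, with an arbitrary local condition.
-/

set_option autoImplicit false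

namespace Pool.Agent.Results.MP_787500_nt.SelmerParityThree

open Pool.Agent.Work.MP_787500_nt.P3
open Pool.Agent.Work.MP_787500_nt.Parity (ParityBound)
open Pool.Agent.Work.MP_787500_nt.OddP (AbsGal IsBase)
open IsDedekindDomain NumberField

universe u w

theorem result (K : Type u) [Field K] [NumberField K] (hK : IsBase 3 K)
    (P : Ideal (𝓞 (AlgebraicClosure K))) (hP : P.IsPrime) (hP3 : (3 : 𝓞 (AlgebraicClosure K)) ∈ P)
    (c : AlgebraicClosure K ≃+* AlgebraicClosure K) (hc : ∀ x, c (c x) = x)
    (hcK : ∃ a : K, c (algebraMap K (AlgebraicClosure K) a) ≠ algebraMap K (AlgebraicClosure K) a)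
    (κ : AbsGal K → AbsGal K)
    (hκ : ∀ (σ : AbsGal K) (x : AlgebraicClosure K), κ σ x = c (σ (c x)))
    (E : Type w) [NormedField E] [NormedAlgebra ℚ_[3] E] [FiniteDimensional ℚ_[3] E] (n : ℕ)
    (ρ : AbsGal K →* Matrix (Fin n) (Fin n) E) (b : Matrix (Fin n) (Fin n) E)
    (hρ : IsConjDual κ ρ b) :
    ParityBound (ramOffThree K) (cycloThree E) κ ρ b (dec P) := by
  have hcc : IsConj c := ⟨hc, hcK⟩
  obtain ⟨X, hX⟩ := exists_gens (S := pSys K) three_pSys (countsK hK ⊤ opn_top_pSys).1
  obtain ⟨inv, hinv⟩ := exists_inv hK hcc hκ E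
  exact par3 (dec P) (dec_closed P) (fun hW g => dec_mul_good hK P hP3 hW g)
    (fun hU lam hmul hcont => loc_glob hK P hP3 hU lam hmul hcont) X hX (gp_index hK) isChar_cyc
    (fun k hk => cyc_core hk) (isInvol hc hκ) (kappa_continuous hc hκ) hinv hρ.gn

end Pool.Agent.Results.MP_787500_nt.SelmerParityThree
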