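import Mathlib
import Pool.Agent.Work.MP_787500_nt.H10_Main

/-!
Elliptic curves with full two-torsion over the number fields in the maximal 2-extension, unramified
outside 2, of an imaginary quadratic field of discriminant `-q`, `q` a prime, `q = 7` modulo 16.
-/

set_option autoImplicit false

namespace Pool.Agent.Results.MP_787500_nt.TwoTower

open Pool.Agent.Work.MP_787500_nt

universe u

theorem result :
    (∀ (K F : Type u) [Field K] [NumberField K] [Field F] [NumberField F] [Algebra K F]
      (q : ℕ) (s : K), IsBase K q s → InTwoTower K F → MainBound F) ∧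
    (∀ (K F : Type u) [Field K] [NumberField K] [Field F] [NumberField F] [Algebra K F]
      (s : K), IsBase K 7 s → InTwoTower K F →
      CMBound (algebraMap K F s) ∧ RankTwo (algebraMap K F s) (algebraMap K F ((9 - s) / 2))) ∧
    (∀ (K : Type u) [Field K] [NumberField K] (s : K), IsBase K 7 s →
      (oddPlaces ((9 - s) / 2)).ncard = 1) := by
  classical
  refine ⟨?_, ?_, ?_⟩
  · rintro K F _ _ _ _ _ q s ⟨hK, hs, hq, hq16⟩ hF e1 e2 e3 h12 h23 h31
      ⟨⟨w, hw, hfar⟩, w', hw', hfar'⟩
    exact ⟨places_finite h12 h23 h31,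
      general (general_tower hK hs hq hq16 hF) h12 h23 h31 hw hw' hfar hfar'⟩
  · rintro K F _ _ _ _ _ s ⟨hK, hs, -, -⟩ hF
    replace hs : s ^ 2 = -7 := by rw [hs]; norm_num
    obtain ⟨hD, -, hr⟩ := rank_example hK hs
    refine ⟨fun D hD => ?_, fun h => ?_⟩
    · obtain ⟨-, h1, h2, h3, h4, -⟩ := cm_tower hK hs hF hD
      exact ⟨h1, h2, h3, h4⟩
    · obtain ⟨h1, h2⟩ := cm_persist hK hs hF hD (by rw [hr]; omega)
      refine ⟨le_antisymm (by rw [h1]; omega) ?_, h2⟩
      rw [← hr]
      exact rank_mono hK hs hF hD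
  · rintro K _ _ s ⟨hK, hs, -, -⟩
    exact (rank_example hK (by rw [hs]; norm_num)).2.1

end Pool.Agent.Results.MP_787500_nt.TwoTower
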